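import Pool.Agent.T9h51.MT.Primes

/-!
# Integer parts of multiples and of powers
-/

set_option autoImplicit false

namespace Pool.Agent.T9h51.MT

open Finset MeasureTheory Filter Topology

lemma Bad.mono {m m' : ℕ} {θ : ℝ} {r v : ℕ → ℕ} {N a : ℕ} (h : Bad m m θ r v N a) (hm : m ≤ m') (hN : 3 ≤ N) :
    Bad m' m' θ r v N a := by
  unfold Bad at h ⊢
  have hNr : (3 : ℝ) ≤ N := by exact_mod_cast hN
  have hlog : 1 ≤ Real.log N := by
    rw [Real.le_log_iff_exp_le (by linarith)]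
    linarith [Real.exp_one_lt_d9]
  refine lt_of_le_of_lt ?_ (h.trans_le (SW_mono_kappa _ _ (Nat.cast_nonneg _) (by exact_mod_cast hm) _ _ _))
  apply div_le_div_of_nonneg_left (by linarith) (by positivity)
  exact pow_le_pow_right₀ hlog hm

/-- the exceptional set in terms of the integer part -/
def ExcI (θ lam : ℝ) (E : Set ℝ) (g : ℕ → ℝ → ℝ) (r v : ℕ → ℕ → ℕ) : Set ℝ :=
  {x : ℝ | x ∈ E ∧ ∃ m : ℕ, ∃ᶠ k in atTop, ∃ N : ℕ, (⌊g k x⌋₊ : ℝ) ≤ (N : ℝ) ^ m ∧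
      (N : ℝ) ≤ m * (⌊g k x⌋₊ : ℝ) ^ lam ∧ Bad m m θ (r k) (v k) N ⌊g k x⌋₊}

/-- comparison of the two exceptional sets -/
lemma excI_sub (θ lam lam' : ℝ) (E : Set ℝ) (g : ℕ → ℝ → ℝ) (u : ℕ → ℝ) (r v : ℕ → ℕ → ℕ)
    (hu : ∀ k, 0 < u k) (hut : Tendsto u atTop atTop) (hlam : 0 < lam)
    (h1 : ∀ x ∈ E, ∃ c : ℝ, 0 < c ∧ ∀ k, c * u k ≤ g k x)
    (h2 : ∀ x ∈ E, ∃ C : ℝ, ∀ k, (g k x) ^ lam ≤ C * u k ^ lam') : ExcI θ lam E g r v ⊆ Exc θ lam' E g u r v := by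
  rintro x ⟨hxE, m, hx⟩
  obtain ⟨c, hc, hcu⟩ := h1 x hxE
  obtain ⟨C, hC⟩ := h2 x hxE
  obtain ⟨M, hM⟩ := exists_nat_ge (max (2 / c) (m * |C|))
  have hM1 : 2 / c ≤ M := (le_max_left _ _).trans hM
  have hM2 : m * |C| ≤ M := (le_max_right _ _).trans hM
  obtain ⟨m', hm'⟩ : ∃ m', m' = m + M + 3 := ⟨_, rfl⟩
  refine ⟨hxE, m', ?_⟩
  -- the heights tend to infinity
  have hlarge : ∀ᶠ k in atTop, 2 / c + ((M + 4 : ℕ) : ℝ) ^ m / c + 2 / c ≤ u k := hut.eventually_ge_atTop _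
  refine (hx.and_eventually hlarge).mono ?_
  rintro k ⟨⟨N, hN1, hN2, hbad⟩, hk⟩
  have hgk := hcu k
  have hcp : 0 < c * u k := mul_pos hc (hu k)
  have hg0 : 0 ≤ g k x := by linarith
  have hf := Nat.lt_floor_add_one (g k x)
  have hf' := Nat.floor_le hg0
  have e1 : 2 + ((M + 4 : ℕ) : ℝ) ^ m + 2 ≤ c * u k := by
    have h3 := mul_le_mul_of_nonneg_left hk hc.le
    have h4 : c * (2 / c + ((M + 4 : ℕ) : ℝ) ^ m / c + 2 / c) = 2 + ((M + 4 : ℕ) : ℝ) ^ m + 2 := by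
      field_simp
    rw [h4] at h3
    exact h3
  have hpow0 : (0 : ℝ) ≤ ((M + 4 : ℕ) : ℝ) ^ m := by positivity
  -- `N` is large
  have hNM : M + 4 < N := by
    by_contra hcon
    push Not at hcon
    have h3 : (N : ℝ) ^ m ≤ ((M + 4 : ℕ) : ℝ) ^ m := pow_le_pow_left₀ (Nat.cast_nonneg _) (by exact_mod_cast hcon) _
    linarith
  have hNr : (4 : ℝ) + M ≤ N := by
    have : ((M + 4 : ℕ) : ℝ) ≤ N := by exact_mod_cast hNM.le
    push_cast at this
    linarith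
  have hM0 : (0 : ℝ) ≤ M := Nat.cast_nonneg M
  have hN1' : (1 : ℝ) ≤ N := by linarith
  refine ⟨hg0, N, ?_, ?_, ?_, hbad.mono (by omega) (by omega)⟩
  · -- `u k ≤ (2 / c) ⌊g⌋ ≤ N ^ (m + 1)`
    have h3 : c * u k ≤ 2 * ⌊g k x⌋₊ := by linarith
    have h4 : u k ≤ 2 / c * ⌊g k x⌋₊ := by
      rw [div_mul_eq_mul_div, le_div_iff₀ hc]
      linarith
    calc u k ≤ 2 / c * ⌊g k x⌋₊ := h4
      _ ≤ N * (N : ℝ) ^ m := mul_le_mul (by linarith) hN1 (Nat.cast_nonneg _) (Nat.cast_nonneg _)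
      _ = (N : ℝ) ^ (m + 1) := by rw [pow_succ]; ring
      _ ≤ (N : ℝ) ^ m' := pow_le_pow_right₀ hN1' (by omega)
  · have h3 : (⌊g k x⌋₊ : ℝ) ^ lam ≤ g k x ^ lam := Real.rpow_le_rpow (Nat.cast_nonneg _) hf' hlam.le
    have hup : 0 ≤ u k ^ lam' := Real.rpow_nonneg (hu k).le _
    calc (N : ℝ) ≤ m * (⌊g k x⌋₊ : ℝ) ^ lam := hN2
      _ ≤ m * (C * u k ^ lam') := mul_le_mul_of_nonneg_left (h3.trans (hC k)) (Nat.cast_nonneg _)
      _ ≤ m * (|C| * u k ^ lam') :=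
          mul_le_mul_of_nonneg_left (mul_le_mul_of_nonneg_right (le_abs_self _) hup) (Nat.cast_nonneg _)
      _ = (m * |C|) * u k ^ lam' := by ring
      _ ≤ m' * u k ^ lam' := by
          apply mul_le_mul_of_nonneg_right _ hup
          rw [hm']
          push_cast
          have : (0 : ℝ) ≤ m := Nat.cast_nonneg m
          linarith
  · exact hN1.trans (pow_le_pow_right₀ hN1' (by omega))

lemma tendsto_of_summable (u : ℕ → ℝ) (hu : ∀ k, 0 < u k) (s : ℝ) (hs : 0 < s) (h : Summable (fun k => u k ^ (-s))) :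
    Tendsto u atTop atTop := by
  have h1 := h.tendsto_atTop_zero
  rw [tendsto_atTop]
  intro b
  have h2 : (0 : ℝ) < (max b 1) ^ (-s) := by positivity
  filter_upwards [h1.eventually (gt_mem_nhds h2)] with k hk
  by_contra hcon
  push Not at hcon
  have h3 := Real.rpow_le_rpow_of_nonpos (hu k) (hcon.le.trans (le_max_left b 1)) (by linarith : -s ≤ 0)
  linarith

/-- **multiples** -/
theorem dim_mult (θ : ℝ) (hθ1 : 1 / 2 ≤ θ) (hθ2 : θ < 1) (lam : ℝ) (hlam : 0 < lam) (u : ℕ → ℝ) (hu : ∀ k, 0 < u k) (δ : ℝ)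
    (hδ : 0 ≤ δ) (hsum : ∀ s : ℝ, δ < s → Summable (fun k => u k ^ (-s)))
    (r v : ℕ → ℕ → ℕ) (hr : ∀ k q, 1 ≤ q → (r k q).Coprime q) :
    dimH (ExcI θ lam (Set.Ioi 0) (fun k x => x * u k) r v) ≤ ENNReal.ofReal (lam * (2 * θ - 1) + δ) := by
  have hut := tendsto_of_summable u hu (δ + 1) (by linarith) (hsum _ (by linarith))
  refine (dimH_mono (excI_sub θ lam lam (Set.Ioi 0) (fun k x => x * u k) u r v hu hut hlam ?_ ?_)).trans
    (dim_exc θ hθ1 hθ2 (Set.Ioi 0) (fun k x => x * u k) u hu ?_ δ hδ hsum lam hlam r v hr)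
  · intro x hx
    exact ⟨x, hx, fun k => le_rfl⟩
  · intro x hx
    exact ⟨x ^ lam, fun k => by rw [Real.mul_rpow (le_of_lt hx) (hu k).le]⟩
  · intro k x _ y _
    rw [← sub_mul, abs_mul, abs_of_pos (hu k), mul_comm]

lemma pow_gap (β x y : ℝ) (hβ : 1 ≤ β) (hx : β ≤ x) (hy : β ≤ y) (k : ℕ) : β ^ k * |x - y| ≤ |x ^ (k + 1) - y ^ (k + 1)| := by
  have main : ∀ a b : ℝ, β ≤ b → b ≤ a → β ^ k * (a - b) ≤ a ^ (k + 1) - b ^ (k + 1) := by
    intro a b hb hab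
    have h0 : 0 ≤ b := by linarith
    have h1 : b ^ k ≤ a ^ k := pow_le_pow_left₀ h0 hab k
    have h2 : β ^ k ≤ b ^ k := pow_le_pow_left₀ (by linarith) hb k
    have e : a ^ (k + 1) - b ^ (k + 1) = a * (a ^ k - b ^ k) + (a - b) * b ^ k := by ring
    rw [e]
    have h3 : 0 ≤ a * (a ^ k - b ^ k) := mul_nonneg (by linarith) (by linarith)
    have h4 : β ^ k * (a - b) ≤ (a - b) * b ^ k := by
      rw [mul_comm]
      exact mul_le_mul_of_nonneg_left h2 (by linarith)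
    linarith
  rcases le_total y x with h | h
  · have := main x y hy h
    rw [abs_of_nonneg (by linarith : 0 ≤ x - y)]
    exact this.trans (le_abs_self _)
  · have := main y x hx h
    rw [abs_sub_comm x y, abs_sub_comm (x ^ (k + 1)), abs_of_nonneg (by linarith : 0 ≤ y - x)]
    exact this.trans (le_abs_self _)

/-- powers, locally -/
theorem dim_pow_local (θ : ℝ) (hθ1 : 1 / 2 ≤ θ) (hθ2 : θ < 1) (lam : ℝ) (hlam : 0 < lam) (β τ : ℝ) (hβ : 1 < β) (hτ : 0 < τ)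
    (r v : ℕ → ℕ → ℕ) (hr : ∀ k q, 1 ≤ q → (r k q).Coprime q) :
    dimH (ExcI θ lam (Set.Icc β (β ^ (1 + τ))) (fun k x => x ^ (k + 1)) r v) ≤
      ENNReal.ofReal (lam * (1 + τ) * (2 * θ - 1)) := by
  have hβ0 : 0 < β := by linarith
  have hu : ∀ k : ℕ, 0 < β ^ k := fun k => pow_pos hβ0 k
  have hsum : ∀ s : ℝ, 0 < s → Summable (fun k : ℕ => (β ^ k) ^ (-s)) := by
    intro s hs
    have h1 : ∀ k : ℕ, (β ^ k) ^ (-s) = (β ^ (-s)) ^ k := by
      intro k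
      rw [← Real.rpow_natCast β k, ← Real.rpow_mul hβ0.le, ← Real.rpow_natCast (β ^ (-s)) k, ← Real.rpow_mul hβ0.le]
      congr 1
      ring
    simp only [h1]
    exact summable_geometric_of_lt_one (by positivity) (Real.rpow_lt_one_of_one_lt_of_neg hβ (by linarith))
  have hut : Tendsto (fun k : ℕ => β ^ k) atTop atTop := tendsto_pow_atTop_atTop_of_one_lt hβ
  have h := dim_exc θ hθ1 hθ2 (Set.Icc β (β ^ (1 + τ))) (fun k x => x ^ (k + 1)) (fun k => β ^ k) hu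
    (fun k x hx y hy => pow_gap β x y hβ.le hx.1 hy.1 k) 0 le_rfl hsum (lam * (1 + τ)) (by positivity) r v hr
  rw [add_zero] at h
  refine (dimH_mono (excI_sub θ lam (lam * (1 + τ)) _ _ (fun k => β ^ k) r v hu hut hlam ?_ ?_)).trans h
  · rintro x ⟨hx1, hx2⟩
    refine ⟨1, one_pos, fun k => ?_⟩
    rw [one_mul]
    calc β ^ k ≤ x ^ k := pow_le_pow_left₀ hβ0.le hx1 k
      _ ≤ x ^ (k + 1) := pow_le_pow_right₀ (by linarith) (by omega)
  · rintro x ⟨hx1, hx2⟩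
    have hx0 : 0 < x := by linarith
    refine ⟨β ^ (lam * (1 + τ)), fun k => ?_⟩
    calc (x ^ (k + 1)) ^ lam ≤ ((β ^ (1 + τ)) ^ (k + 1)) ^ lam :=
          Real.rpow_le_rpow (by positivity) (pow_le_pow_left₀ hx0.le hx2 _) hlam.le
      _ = β ^ (lam * (1 + τ)) * (β ^ k) ^ (lam * (1 + τ)) := by
          rw [← Real.rpow_natCast (β ^ (1 + τ)), ← Real.rpow_mul hβ0.le, ← Real.rpow_mul hβ0.le, ← Real.rpow_natCast β k,
            ← Real.rpow_mul hβ0.le, ← Real.rpow_add hβ0]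
          congr 1
          push_cast
          ring
      _ ≤ _ := le_rfl

/-- **powers** -/
theorem dim_pow (θ : ℝ) (hθ1 : 1 / 2 ≤ θ) (hθ2 : θ < 1) (lam : ℝ) (hlam : 0 < lam)
    (r v : ℕ → ℕ → ℕ) (hr : ∀ k q, 1 ≤ q → (r k q).Coprime q) :
    dimH (ExcI θ lam (Set.Ioi 1) (fun k x => x ^ k) r v) ≤ ENNReal.ofReal (lam * (2 * θ - 1)) := by
  have hσ : 0 ≤ lam * (2 * θ - 1) := mul_nonneg hlam.le (by linarith)
  have main : ∀ τ : ℝ, 0 < τ → dimH (ExcI θ lam (Set.Ioi 1) (fun k x => x ^ k) r v) ≤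
      ENNReal.ofReal (lam * (1 + τ) * (2 * θ - 1)) := by
    intro τ hτ
    have hsub : ExcI θ lam (Set.Ioi 1) (fun k x => x ^ k) r v ⊆ ⋃ q : {q : ℚ // 1 < (q : ℝ)},
        ExcI θ lam (Set.Icc (q.1 : ℝ) ((q.1 : ℝ) ^ (1 + τ))) (fun k x => x ^ (k + 1)) (fun k => r (k + 1)) (fun k => v (k + 1)) := by
      rintro x ⟨hx1, m, hx⟩
      have hx1' : (1 : ℝ) < x := hx1
      have hx0 : 0 < x := by linarith
      have h1 : x ^ (1 / (1 + τ)) < x := by
        calc x ^ (1 / (1 + τ)) < x ^ (1 : ℝ) := by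
              apply Real.rpow_lt_rpow_of_exponent_lt hx1'
              rw [div_lt_one (by linarith)]
              linarith
          _ = x := Real.rpow_one x
      obtain ⟨q, hq1, hq2⟩ := exists_rat_btwn h1
      have h2 : 1 < x ^ (1 / (1 + τ)) := Real.one_lt_rpow hx1' (by positivity)
      rw [Set.mem_iUnion]
      refine ⟨⟨q, by linarith⟩, ⟨hq2.le, ?_⟩, m, ?_⟩
      · calc x = (x ^ (1 / (1 + τ))) ^ (1 + τ) := by
              rw [← Real.rpow_mul hx0.le, one_div, inv_mul_cancel₀ (by linarith), Real.rpow_one]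
          _ ≤ (q : ℝ) ^ (1 + τ) := Real.rpow_le_rpow (by positivity) hq1.le (by linarith)
      · rw [frequently_atTop] at hx ⊢
        intro a
        obtain ⟨b, hb, hb2⟩ := hx (a + 1)
        obtain ⟨c, rfl⟩ : ∃ c, b = c + 1 := ⟨b - 1, by omega⟩
        exact ⟨c, by omega, hb2⟩
    refine (dimH_mono hsub).trans ?_
    rw [dimH_iUnion]
    apply iSup_le
    intro q
    exact dim_pow_local θ hθ1 hθ2 lam hlam q.1 τ q.2 hτ _ _ (fun k d hd => hr (k + 1) d hd)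
  apply le_of_forall_gt_imp_ge_of_dense
  intro t ht
  rcases eq_or_ne t ⊤ with rfl | htop
  · exact le_top
  · have h6 : ENNReal.ofReal (t.toReal) = t := ENNReal.ofReal_toReal htop
    rw [← h6] at ht ⊢
    have h7 : lam * (2 * θ - 1) < t.toReal := by
      by_contra hcon
      push Not at hcon
      exact absurd ht (not_lt.2 (ENNReal.ofReal_le_ofReal hcon))
    obtain ⟨τ, hτ⟩ : ∃ τ : ℝ, τ = (t.toReal - lam * (2 * θ - 1)) / (lam * (2 * θ - 1) + 1) := ⟨_, rfl⟩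
    have hτ0 : 0 < τ := by rw [hτ]; exact div_pos (by linarith) (by linarith)
    refine (main τ hτ0).trans (ENNReal.ofReal_le_ofReal ?_)
    have h8 : τ * (lam * (2 * θ - 1) + 1) = t.toReal - lam * (2 * θ - 1) := by
      rw [hτ]
      field_simp
    nlinarith

/-- sets of dimension less than one are null sets -/
lemma null_of_dim (S : Set ℝ) (s : ℝ) (hs : s < 1) (h : dimH S ≤ ENNReal.ofReal s) : volume S = 0 := by
  have h1 : dimH S < ((1 : NNReal) : ENNReal) := by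
    refine h.trans_lt ?_
    rw [ENNReal.coe_one, ENNReal.ofReal_lt_one]
    exact hs
  have h2 : Measure.hausdorffMeasure ((1 : NNReal) : ℝ) S = 0 := by
    exact hausdorffMeasure_of_dimH_lt h1
  rw [NNReal.coe_one, MeasureTheory.hausdorffMeasure_real] at h2
  exact h2

end Pool.Agent.T9h51.MT
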