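import Pool.Agent.Y856.Metric.HC

/-!
# The dimension of the set of the real numbers for which infinitely many integer parts are bad
-/

set_option autoImplicit false

namespace Pool.Agent.T9h51.MT

open Finset MeasureTheory Filter Topology
open scoped ENNReal NNReal MeasureTheory

/-- powers of two up to a bound -/
lemma sum_scales (C σ ε : ℝ) (hC : 0 ≤ C) (hσ : 0 ≤ σ) (hε : 0 < ε) (B : ℕ) : ∃ K : ℝ, 0 ≤ K ∧ ∀ X : ℝ, 0 ≤ X → ∀ n : ℕ,
    ∑ j ∈ (range n).filter (fun j : ℕ => (2 : ℝ) ^ j ≤ X), C * (2 : ℝ) ^ ((j : ℝ) * σ) * ((j : ℝ) + 1) ^ B ≤ K * X ^ (σ + ε) := by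
  -- summability of 2^(-j ε) (j+1)^B
  have hsum : Summable (fun j : ℕ => ((j : ℝ) + 1) ^ B * (2 : ℝ) ^ (-((j : ℝ) * ε))) := by
    have h1 : Summable (fun j : ℕ => (j : ℝ) ^ B * ((2 : ℝ) ^ (-ε)) ^ j) := by
      apply summable_pow_mul_geometric_of_norm_lt_one
      rw [Real.norm_eq_abs, abs_of_nonneg (by positivity)]
      exact Real.rpow_lt_one_of_one_lt_of_neg (by norm_num) (by linarith)
    have h2 := (summable_nat_add_iff 1).2 h1
    have h3 := h2.mul_left ((2 : ℝ) ^ ε)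
    refine h3.congr fun j => ?_
    push_cast
    rw [pow_succ ((2 : ℝ) ^ (-ε)) j, ← Real.rpow_natCast ((2 : ℝ) ^ (-ε)) j, ← Real.rpow_mul (by norm_num)]
    have e1 : (2 : ℝ) ^ ε * (2 : ℝ) ^ (-ε) = 1 := by
      rw [← Real.rpow_add (by norm_num), add_neg_cancel, Real.rpow_zero]
    have e2 : -ε * (j : ℝ) = -((j : ℝ) * ε) := by ring
    rw [e2]
    calc (2 : ℝ) ^ ε * (((j : ℝ) + 1) ^ B * ((2 : ℝ) ^ (-((j : ℝ) * ε)) * (2 : ℝ) ^ (-ε))) =
        ((2 : ℝ) ^ ε * (2 : ℝ) ^ (-ε)) * (((j : ℝ) + 1) ^ B * (2 : ℝ) ^ (-((j : ℝ) * ε))) := by ring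
      _ = _ := by rw [e1, one_mul]
  refine ⟨C * ∑' j : ℕ, ((j : ℝ) + 1) ^ B * (2 : ℝ) ^ (-((j : ℝ) * ε)),
    mul_nonneg hC (tsum_nonneg fun j => by positivity), fun X hX n => ?_⟩
  rw [mul_assoc, mul_comm (∑' j : ℕ, ((j : ℝ) + 1) ^ B * (2 : ℝ) ^ (-((j : ℝ) * ε))), ← mul_assoc]
  calc ∑ j ∈ (range n).filter (fun j : ℕ => (2 : ℝ) ^ j ≤ X), C * (2 : ℝ) ^ ((j : ℝ) * σ) * ((j : ℝ) + 1) ^ B ≤
      ∑ j ∈ (range n).filter (fun j : ℕ => (2 : ℝ) ^ j ≤ X),
        C * X ^ (σ + ε) * (((j : ℝ) + 1) ^ B * (2 : ℝ) ^ (-((j : ℝ) * ε))) := by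
        apply sum_le_sum
        intro j hj
        rw [mem_filter] at hj
        have h1 : (2 : ℝ) ^ ((j : ℝ) * σ) ≤ X ^ (σ + ε) * (2 : ℝ) ^ (-((j : ℝ) * ε)) := by
          have h2 : (2 : ℝ) ^ ((j : ℝ) * σ) = ((2 : ℝ) ^ j) ^ (σ + ε) * (2 : ℝ) ^ (-((j : ℝ) * ε)) := by
            rw [← Real.rpow_natCast (2 : ℝ) j, ← Real.rpow_mul (by norm_num), ← Real.rpow_add (by norm_num)]
            congr 1
            ring
          rw [h2]
          exact mul_le_mul_of_nonneg_right (Real.rpow_le_rpow (by positivity) hj.2 (by linarith)) (by positivity)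
        calc C * (2 : ℝ) ^ ((j : ℝ) * σ) * ((j : ℝ) + 1) ^ B ≤
            C * (X ^ (σ + ε) * (2 : ℝ) ^ (-((j : ℝ) * ε))) * ((j : ℝ) + 1) ^ B :=
              mul_le_mul_of_nonneg_right (mul_le_mul_of_nonneg_left h1 hC) (by positivity)
          _ = _ := by ring
    _ = C * X ^ (σ + ε) * ∑ j ∈ (range n).filter (fun j : ℕ => (2 : ℝ) ^ j ≤ X),
        (((j : ℝ) + 1) ^ B * (2 : ℝ) ^ (-((j : ℝ) * ε))) := by rw [mul_sum]
    _ ≤ _ := by
        apply mul_le_mul_of_nonneg_left _ (mul_nonneg hC (Real.rpow_nonneg hX _))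
        exact hsum.sum_le_tsum _ (fun j _ => by positivity)

open Classical in
/-- **The covering lemma.** -/
theorem cover (E : Set ℝ) (g : ℕ → ℝ → ℝ) (u : ℕ → ℝ) (hu : ∀ k, 0 < u k)
    (hg : ∀ k, ∀ x ∈ E, ∀ y ∈ E, u k * |x - y| ≤ |g k x - g k y|) (δ : ℝ) (hδ : 0 ≤ δ)
    (hsum : ∀ s : ℝ, δ < s → Summable (fun k => u k ^ (-s))) (lam σ C M : ℝ) (B : ℕ) (hlam : 0 < lam) (hσ : 0 ≤ σ)
    (hC : 0 ≤ C) (hM : 0 ≤ M) (A : ℕ → ℕ → Finset ℕ)
    (hA : ∀ k j, ((A k j).card : ℝ) ≤ C * (2 : ℝ) ^ ((j : ℝ) * σ) * ((j : ℝ) + 1) ^ B) :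
    dimH {x : ℝ | x ∈ E ∧ ∃ᶠ k in atTop, 0 ≤ g k x ∧ ∃ j : ℕ, (2 : ℝ) ^ j ≤ M * u k ^ lam ∧ ⌊g k x⌋₊ ∈ A k j} ≤
      ENNReal.ofReal (lam * σ + δ) := by
  obtain ⟨F, hF⟩ : ∃ F, F = {x : ℝ | x ∈ E ∧ ∃ᶠ k in atTop, 0 ≤ g k x ∧ ∃ j : ℕ, (2 : ℝ) ^ j ≤ M * u k ^ lam ∧ ⌊g k x⌋₊ ∈ A k j} := ⟨_, rfl⟩
  rw [← hF]
  have hls : 0 ≤ lam * σ := mul_nonneg hlam.le hσ
  -- it suffices to bound the dimension by every larger number
  have main : ∀ s : ℝ, lam * σ + δ < s → dimH F ≤ ENNReal.ofReal s := by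
    intro s hs
    have hs0 : 0 < s := by linarith
    obtain ⟨ε, hε⟩ : ∃ ε : ℝ, ε = (s - (lam * σ + δ)) / (2 * lam) := ⟨_, rfl⟩
    have hε0 : 0 < ε := by rw [hε]; exact div_pos (by linarith) (by linarith)
    have hεl : lam * ε = (s - (lam * σ + δ)) / 2 := by rw [hε]; field_simp
    obtain ⟨K, hK0, hK⟩ := sum_scales C σ ε hC hσ hε0 B
    obtain ⟨I, hI⟩ : ∃ I : ℕ × (ℕ × ℕ) → Set ℝ, ∀ n, I n = if (2 : ℝ) ^ n.2.1 ≤ M * u n.1 ^ lam ∧ n.2.2 ∈ A n.1 n.2.1 then
      {x | x ∈ E ∧ 0 ≤ g n.1 x ∧ ⌊g n.1 x⌋₊ = n.2.2} else ∅ := ⟨_, fun _ => rfl⟩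
    have hdiam : ∀ k j a, Metric.ediam (I (k, j, a)) ^ s ≤
        if (2 : ℝ) ^ j ≤ M * u k ^ lam ∧ a ∈ A k j then ENNReal.ofReal (u k ^ (-s)) else 0 := by
      intro k j a
      rw [hI]
      simp only
      split_ifs with h
      · have h1 : Metric.ediam {x | x ∈ E ∧ 0 ≤ g k x ∧ ⌊g k x⌋₊ = a} ≤ ENNReal.ofReal (1 / u k) := by
          apply Metric.ediam_le
          rintro x ⟨hx1, hx2, hx3⟩ y ⟨hy1, hy2, hy3⟩
          rw [edist_dist, Real.dist_eq]
          apply ENNReal.ofReal_le_ofReal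
          rw [le_div_iff₀ (hu k), mul_comm]
          refine (hg k x hx1 y hy1).trans ?_
          have a1 := Nat.floor_le hx2
          have a2 := Nat.lt_floor_add_one (g k x)
          have b1 := Nat.floor_le hy2
          have b2 := Nat.lt_floor_add_one (g k y)
          rw [hx3] at a1 a2
          rw [hy3] at b1 b2
          rw [abs_le]
          constructor <;> linarith
        refine (ENNReal.rpow_le_rpow h1 hs0.le).trans (le_of_eq ?_)
        rw [ENNReal.ofReal_rpow_of_pos (by have := hu k; positivity)]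
        congr 1
        rw [Real.rpow_neg (hu k).le, one_div, Real.inv_rpow (hu k).le]
      · simp [hs0]
    -- the sum
    have hfin : ∑' n, Metric.ediam (I n) ^ s ≠ ∞ := by
      have h1 : ∑' n, Metric.ediam (I n) ^ s ≤ ∑' k : ℕ, ENNReal.ofReal ((K * M ^ (σ + ε)) * u k ^ (-(s - lam * (σ + ε)))) := by
        rw [ENNReal.tsum_prod']
        apply ENNReal.tsum_le_tsum
        intro k
        rw [ENNReal.tsum_prod']
        -- the inner sums are finite
        have hX : 0 ≤ M * u k ^ lam := mul_nonneg hM (Real.rpow_nonneg (hu k).le _)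
        obtain ⟨n₀, hn₀⟩ := pow_unbounded_of_one_lt (M * u k ^ lam) (by norm_num : (1 : ℝ) < 2)
        calc ∑' (a : ℕ) (b : ℕ), Metric.ediam (I (k, a, b)) ^ s ≤
            ∑' j : ℕ, (if (2 : ℝ) ^ j ≤ M * u k ^ lam then ((A k j).card : ℝ≥0∞) * ENNReal.ofReal (u k ^ (-s)) else 0) := by
              apply ENNReal.tsum_le_tsum
              intro j
              calc ∑' a : ℕ, Metric.ediam (I (k, j, a)) ^ s ≤
                  ∑' a : ℕ, (if (2 : ℝ) ^ j ≤ M * u k ^ lam ∧ a ∈ A k j then ENNReal.ofReal (u k ^ (-s)) else 0) :=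
                    ENNReal.tsum_le_tsum fun a => hdiam k j a
                _ = _ := by
                    by_cases hj : (2 : ℝ) ^ j ≤ M * u k ^ lam
                    · simp only [hj, true_and, if_true]
                      rw [tsum_eq_sum (s := A k j) (fun a ha => if_neg ha), sum_congr rfl (fun a ha => if_pos ha), sum_const,
                        nsmul_eq_mul]
                    · simp only [hj, false_and, if_false, tsum_zero]
          _ = ∑ j ∈ (range n₀).filter (fun j : ℕ => (2 : ℝ) ^ j ≤ M * u k ^ lam),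
              ((A k j).card : ℝ≥0∞) * ENNReal.ofReal (u k ^ (-s)) := by
              rw [tsum_eq_sum (s := (range n₀).filter (fun j : ℕ => (2 : ℝ) ^ j ≤ M * u k ^ lam))]
              · apply sum_congr rfl
                intro j hj
                rw [if_pos (mem_filter.1 hj).2]
              · intro j hj
                rw [if_neg]
                intro h2
                apply hj
                rw [mem_filter, mem_range]
                refine ⟨?_, h2⟩
                by_contra hcon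
                push Not at hcon
                have h3 : (2 : ℝ) ^ n₀ ≤ (2 : ℝ) ^ j := pow_le_pow_right₀ (by norm_num) hcon
                linarith
          _ = ENNReal.ofReal (∑ j ∈ (range n₀).filter (fun j : ℕ => (2 : ℝ) ^ j ≤ M * u k ^ lam),
              ((A k j).card : ℝ) * u k ^ (-s)) := by
              rw [ENNReal.ofReal_sum_of_nonneg (fun j _ => mul_nonneg (Nat.cast_nonneg _) (Real.rpow_nonneg (hu k).le _))]
              apply sum_congr rfl
              intro j _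
              rw [ENNReal.ofReal_mul (Nat.cast_nonneg _), ENNReal.ofReal_natCast]
          _ ≤ _ := by
              apply ENNReal.ofReal_le_ofReal
              rw [← sum_mul]
              have h4 : ∑ j ∈ (range n₀).filter (fun j : ℕ => (2 : ℝ) ^ j ≤ M * u k ^ lam), ((A k j).card : ℝ) ≤
                  K * (M * u k ^ lam) ^ (σ + ε) := (sum_le_sum fun j _ => hA k j).trans (hK _ hX n₀)
              refine (mul_le_mul_of_nonneg_right h4 (Real.rpow_nonneg (hu k).le _)).trans (le_of_eq ?_)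
              rw [Real.mul_rpow hM (Real.rpow_nonneg (hu k).le _), ← Real.rpow_mul (hu k).le]
              calc K * (M ^ (σ + ε) * u k ^ (lam * (σ + ε))) * u k ^ (-s) =
                  K * M ^ (σ + ε) * (u k ^ (lam * (σ + ε)) * u k ^ (-s)) := by ring
                _ = _ := by
                    rw [← Real.rpow_add (hu k)]
                    congr 2
                    ring
      refine ne_top_of_le_ne_top ?_ h1
      have h2 : Summable (fun k : ℕ => (K * M ^ (σ + ε)) * u k ^ (-(s - lam * (σ + ε)))) := by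
        apply Summable.mul_left
        apply hsum
        rw [mul_add, hεl]
        linarith
      exact h2.tsum_ofReal_ne_top
    have hinf : ∀ x ∈ F, {n | x ∈ I n}.Infinite := by
      intro x hx
      rw [hF] at hx
      obtain ⟨hxE, hx⟩ := hx
      rw [Nat.frequently_atTop_iff_infinite] at hx
      intro hfin2
      apply hx
      refine (hfin2.image (fun n => n.1)).subset ?_
      rintro k ⟨hk1, j, hk2, hk3⟩
      refine ⟨(k, j, ⌊g k x⌋₊), ?_, rfl⟩
      rw [Set.mem_setOf_eq, hI]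
      simp only
      rw [if_pos ⟨hk2, hk3⟩]
      exact ⟨hxE, hk1, rfl⟩
    have hμ := Pool.Agent.Y856.hausdorff_cantelli I s hs0 hfin F hinf
    have h5 := dimH_le_of_hausdorffMeasure_ne_top (s := F) (d := ⟨s, hs0.le⟩) hμ
    exact h5.trans (le_of_eq (ENNReal.ofReal_eq_coe_nnreal hs0.le).symm)
  apply le_of_forall_gt_imp_ge_of_dense
  intro t ht
  rcases eq_or_ne t ∞ with rfl | htop
  · exact le_top
  · have h6 : ENNReal.ofReal (t.toReal) = t := ENNReal.ofReal_toReal htop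
    rw [← h6] at ht ⊢
    have h7 : lam * σ + δ < t.toReal := by
      by_contra hcon
      push Not at hcon
      exact absurd ht (not_lt.2 (ENNReal.ofReal_le_ofReal hcon))
    exact main _ h7

end Pool.Agent.T9h51.MT
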