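import Pool.Agent.T9h51.MT.Cov
import Pool.Agent.Y856.Metric.Base
import Pool.Agent.N900.WS.Few

/-!
# The weighted level of distribution for the integer parts of functions of almost all real numbers
-/

set_option autoImplicit false

namespace Pool.Agent.T9h51.MT

open Finset MeasureTheory Filter Topology
open Pool.Agent.H300R2.WEH (err errMax errMax_nonneg)
open Pool.Agent.N900.WS (SW)

lemma errMax_mono (N N' d l : ℕ) (hd : 1 ≤ d) (hN : 2 ≤ N) (h : N ≤ N') : errMax N d l ≤ errMax N' d l := by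
  have hne : Nonempty (Set.Icc (2 : ℝ) N) := ⟨⟨2, le_rfl, by exact_mod_cast hN⟩⟩
  unfold errMax
  apply ciSup_le
  rintro ⟨y, hy1, hy2⟩
  exact Pool.Agent.Y856.err_le_errMax N' d l hd y hy1 (hy2.trans (by exact_mod_cast h))

lemma SW_mono (κ : ℝ) (hκ : 1 ≤ κ) (N N' Q Q' : ℕ) (c : ℕ → ℕ) (hN : 2 ≤ N) (h : N ≤ N') (hQ : Q ≤ Q') :
    SW κ N Q c ≤ SW κ N' Q' c := by
  unfold SW
  have hκ0 : 0 ≤ κ := by linarith
  calc ∑ q ∈ (Icc 1 Q).filter (fun q => (c q).Coprime q), κ ^ q.primeFactors.card * errMax N q (c q) ≤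
      ∑ q ∈ (Icc 1 Q).filter (fun q => (c q).Coprime q), κ ^ q.primeFactors.card * errMax N' q (c q) := by
        apply sum_le_sum
        intro q hq
        rw [mem_filter, mem_Icc] at hq
        exact mul_le_mul_of_nonneg_left (errMax_mono N N' q _ hq.1.1 hN h) (by positivity)
    _ ≤ _ := by
        apply sum_le_sum_of_subset_of_nonneg
        · intro q hq
          rw [mem_filter, mem_Icc] at hq ⊢
          exact ⟨⟨hq.1.1, hq.1.2.trans hQ⟩, hq.2⟩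
        · intro q _ _
          exact mul_nonneg (by positivity) (errMax_nonneg _ _ _)

/-- the integer `a` is bad for the system of residues `a r(q) + v(q)` at the height `N` -/
def Bad (κ : ℝ) (U : ℕ) (θ : ℝ) (r v : ℕ → ℕ) (N a : ℕ) : Prop :=
  N / Real.log N ^ U < SW κ N ⌊(N : ℝ) ^ θ⌋₊ (fun q => a * r q + v q)

/-- the next power of two -/
lemma bad_two (κ : ℝ) (hκ : 1 ≤ κ) (U : ℕ) (θ : ℝ) (hθ : 0 ≤ θ) (r v : ℕ → ℕ) (N a : ℕ) (hN : 8 ≤ N) (h : Bad κ U θ r v N a) :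
    Bad κ (U + 1) θ r v (2 ^ (Nat.log 2 N + 1)) a := by
  obtain ⟨j, hj⟩ : ∃ j, j = Nat.log 2 N + 1 := ⟨_, rfl⟩
  rw [← hj]
  have h1 : N < 2 ^ j := by rw [hj]; exact Nat.lt_pow_succ_log_self (by norm_num) _
  have h2 : 2 ^ j ≤ 2 * N := by
    rw [hj, pow_succ]
    have := Nat.pow_log_le_self 2 (by omega : N ≠ 0)
    omega
  unfold Bad at h ⊢
  have hNr : (8 : ℝ) ≤ N := by exact_mod_cast hN
  have hN0 : (0 : ℝ) < N := by linarith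
  have hlogN : 0 < Real.log N := Real.log_pos (by linarith)
  have h1r : (N : ℝ) ≤ ((2 ^ j : ℕ) : ℝ) := by exact_mod_cast h1.le
  have h2r : ((2 ^ j : ℕ) : ℝ) ≤ 2 * N := by exact_mod_cast h2
  have hlog : Real.log N ≤ Real.log ((2 ^ j : ℕ) : ℝ) := Real.log_le_log hN0 h1r
  have hlog2 : 2 ≤ Real.log ((2 ^ j : ℕ) : ℝ) := by
    have h3 : Real.log 8 ≤ Real.log ((2 ^ j : ℕ) : ℝ) := Real.log_le_log (by norm_num) (by linarith)
    have h4 : Real.log 8 = 3 * Real.log 2 := by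
      rw [show (8 : ℝ) = 2 ^ 3 by norm_num, Real.log_pow]
      norm_num
    have := Real.log_two_gt_d9
    linarith
  have hQ : ⌊(N : ℝ) ^ θ⌋₊ ≤ ⌊((2 ^ j : ℕ) : ℝ) ^ θ⌋₊ :=
    Nat.floor_le_floor (Real.rpow_le_rpow hN0.le h1r hθ)
  refine lt_of_le_of_lt ?_ (h.trans_le (SW_mono κ hκ N (2 ^ j) _ _ _ (by omega) h1.le hQ))
  obtain ⟨L, hL⟩ : ∃ L, L = Real.log ((2 ^ j : ℕ) : ℝ) := ⟨_, rfl⟩
  rw [← hL] at hlog hlog2 ⊢
  rw [div_le_div_iff₀ (by positivity) (by positivity)]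
  calc ((2 ^ j : ℕ) : ℝ) * Real.log N ^ U ≤ (2 * N) * L ^ U :=
        mul_le_mul h2r (pow_le_pow_left₀ hlogN.le hlog _) (by positivity) (by positivity)
    _ = N * (2 * L ^ U) := by ring
    _ ≤ N * (L * L ^ U) := by
        apply mul_le_mul_of_nonneg_left _ hN0.le
        exact mul_le_mul_of_nonneg_right hlog2 (by positivity)
    _ = N * L ^ (U + 1) := by rw [pow_succ]; ring

open Classical in
/-- **The dimension of the exceptions, with fixed constants.** -/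
theorem dim_fixed (κ : ℝ) (hκ : 1 ≤ κ) (U : ℕ) (D θ : ℝ) (hD : 0 < D) (hθ1 : 1 / 2 ≤ θ) (hθ2 : θ < 1)
    (E : Set ℝ) (g : ℕ → ℝ → ℝ) (u : ℕ → ℝ) (hu : ∀ k, 0 < u k)
    (hg : ∀ k, ∀ x ∈ E, ∀ y ∈ E, u k * |x - y| ≤ |g k x - g k y|) (δ : ℝ) (hδ : 0 ≤ δ)
    (hsum : ∀ s : ℝ, δ < s → Summable (fun k => u k ^ (-s))) (lam : ℝ) (hlam : 0 < lam)
    (r v : ℕ → ℕ → ℕ) (hr : ∀ k q, 1 ≤ q → (r k q).Coprime q) :
    dimH {x : ℝ | x ∈ E ∧ ∃ᶠ k in atTop, 0 ≤ g k x ∧ ∃ N : ℕ, u k ≤ (N : ℝ) ^ D ∧ (N : ℝ) ≤ D * u k ^ lam ∧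
      (⌊g k x⌋₊ : ℝ) ≤ (N : ℝ) ^ D ∧ Bad κ U θ (r k) (v k) N ⌊g k x⌋₊} ≤ ENNReal.ofReal (lam * (2 * θ - 1) + δ) := by
  obtain ⟨B, N₀, hfew⟩ := Pool.Agent.N900.WS.fewW_affine κ hκ (U + 1) (1 - θ) D (by linarith) hD.le
  obtain ⟨A, hA⟩ : ∃ A : ℕ → ℕ → Finset ℕ, ∀ k j, A k j = if N₀ + 8 ≤ 2 ^ j then
      (range (⌊((2 ^ j : ℕ) : ℝ) ^ D⌋₊ + 1)).filter (fun a => Bad κ (U + 1) θ (r k) (v k) (2 ^ j) a) else ∅ := ⟨_, fun _ _ => rfl⟩
  have hcard : ∀ k j, ((A k j).card : ℝ) ≤ 1 * (2 : ℝ) ^ ((j : ℝ) * (2 * θ - 1)) * ((j : ℝ) + 1) ^ B := by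
    intro k j
    rw [hA]
    split_ifs with hj
    · have h1 := hfew (2 ^ j) (by omega) ⌊((2 ^ j : ℕ) : ℝ) ^ θ⌋₊ (by
        rw [sub_sub_cancel]
        exact Nat.floor_le (by positivity)) (r k) (v k) (hr k)
        ((range (⌊((2 ^ j : ℕ) : ℝ) ^ D⌋₊ + 1)).filter (fun a => Bad κ (U + 1) θ (r k) (v k) (2 ^ j) a)) (by
          intro a ha
          rw [mem_filter, mem_range] at ha
          refine ⟨?_, ha.2⟩
          have h2 : a ≤ ⌊((2 ^ j : ℕ) : ℝ) ^ D⌋₊ := by omega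
          exact (Nat.cast_le.2 h2).trans (Nat.floor_le (by positivity)))
      refine h1.trans ?_
      have hlog : Real.log ((2 ^ j : ℕ) : ℝ) ≤ (j : ℝ) + 1 ∧ 0 ≤ Real.log ((2 ^ j : ℕ) : ℝ) := by
        have e1 : Real.log ((2 ^ j : ℕ) : ℝ) = j * Real.log 2 := by push_cast; rw [Real.log_pow]
        have e2 := Real.log_two_lt_d9
        have e3 := Real.log_two_gt_d9
        have e4 : (0 : ℝ) ≤ j := Nat.cast_nonneg j
        rw [e1]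
        constructor
        · nlinarith
        · positivity
      have h3 : (⌊((2 ^ j : ℕ) : ℝ) ^ θ⌋₊ : ℝ) ^ 2 / ((2 ^ j : ℕ) : ℝ) ≤ 1 * (2 : ℝ) ^ ((j : ℝ) * (2 * θ - 1)) := by
        rw [one_mul, div_le_iff₀ (by positivity)]
        have e1 : (⌊((2 ^ j : ℕ) : ℝ) ^ θ⌋₊ : ℝ) ≤ (2 : ℝ) ^ ((j : ℝ) * θ) := by
          refine (Nat.floor_le (by positivity)).trans (le_of_eq ?_)
          push_cast
          rw [← Real.rpow_natCast, ← Real.rpow_mul (by norm_num)]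
        calc (⌊((2 ^ j : ℕ) : ℝ) ^ θ⌋₊ : ℝ) ^ 2 ≤ ((2 : ℝ) ^ ((j : ℝ) * θ)) ^ 2 := pow_le_pow_left₀ (Nat.cast_nonneg _) e1 2
          _ = (2 : ℝ) ^ ((j : ℝ) * (2 * θ - 1)) * ((2 ^ j : ℕ) : ℝ) := by
              push_cast
              rw [← Real.rpow_natCast ((2 : ℝ) ^ ((j : ℝ) * θ)) 2, ← Real.rpow_mul (by norm_num), ← Real.rpow_natCast (2 : ℝ) j,
                ← Real.rpow_add (by norm_num)]
              congr 1
              push_cast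
              ring
      exact mul_le_mul h3 (pow_le_pow_left₀ hlog.2 hlog.1 _) (pow_nonneg hlog.2 _) (by positivity)
    · rw [card_empty, Nat.cast_zero]
      positivity
  have key := cover E g u hu hg δ hδ hsum lam (2 * θ - 1) 1 (2 * D) B hlam (by linarith) zero_le_one (by linarith) A hcard
  refine le_trans (dimH_mono ?_) key
  rintro x ⟨hxE, hx⟩
  refine ⟨hxE, ?_⟩
  -- `u k` is large for large `k`
  have hlarge : ∀ᶠ k in atTop, ((N₀ + 8 : ℕ) : ℝ) ^ D < u k := by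
    have h1 := (hsum (δ + 1) (by linarith)).tendsto_atTop_zero
    have h2 : (0 : ℝ) < (((N₀ + 8 : ℕ) : ℝ) ^ D) ^ (-(δ + 1)) := by positivity
    filter_upwards [h1.eventually (gt_mem_nhds h2)] with k hk
    by_contra hcon
    push Not at hcon
    have h3 := Real.rpow_le_rpow_of_nonpos (hu k) hcon (by linarith : -(δ + 1) ≤ 0)
    linarith
  refine (hx.and_eventually hlarge).mono ?_
  rintro k ⟨⟨hk0, N, hN1, hN2, hN3, hbad⟩, hkl⟩
  refine ⟨hk0, Nat.log 2 N + 1, ?_, ?_⟩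
  · have hN0 : N ≠ 0 := by
      rintro rfl
      rw [Nat.cast_zero, Real.zero_rpow hD.ne'] at hN1
      exact absurd (hu k) (not_lt.2 hN1)
    have h1 : ((2 : ℝ)) ^ (Nat.log 2 N + 1) ≤ 2 * N := by
      rw [pow_succ]
      have : ((2 ^ Nat.log 2 N : ℕ) : ℝ) ≤ N := by exact_mod_cast Nat.pow_log_le_self 2 hN0
      push_cast at this
      linarith
    linarith
  · have hN8 : N₀ + 8 ≤ N := by
      have h1 : ((N₀ + 8 : ℕ) : ℝ) ^ D < (N : ℝ) ^ D := hkl.trans_le hN1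
      have h2 := (Real.rpow_lt_rpow_iff (Nat.cast_nonneg _) (Nat.cast_nonneg _) hD).1 h1
      exact_mod_cast h2.le
    have h3 : N < 2 ^ (Nat.log 2 N + 1) := Nat.lt_pow_succ_log_self (by norm_num) _
    rw [hA, if_pos (by omega), mem_filter, mem_range]
    refine ⟨?_, bad_two κ hκ U θ (by linarith) (r k) (v k) N _ (by omega) hbad⟩
    apply Nat.lt_succ_of_le
    apply Nat.le_floor
    refine hN3.trans (Real.rpow_le_rpow (Nat.cast_nonneg _) ?_ hD.le)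
    exact_mod_cast h3.le

/-- the exceptional set, with all constants -/
def Exc (θ lam : ℝ) (E : Set ℝ) (g : ℕ → ℝ → ℝ) (u : ℕ → ℝ) (r v : ℕ → ℕ → ℕ) : Set ℝ :=
  {x : ℝ | x ∈ E ∧ ∃ m : ℕ, ∃ᶠ k in atTop, 0 ≤ g k x ∧ ∃ N : ℕ, u k ≤ (N : ℝ) ^ m ∧ (N : ℝ) ≤ m * u k ^ lam ∧
      (⌊g k x⌋₊ : ℝ) ≤ (N : ℝ) ^ m ∧ Bad m m θ (r k) (v k) N ⌊g k x⌋₊}

lemma SW_mono_kappa (κ κ' : ℝ) (hκ : 0 ≤ κ) (hκ' : κ ≤ κ') (N Q : ℕ) (c : ℕ → ℕ) : SW κ N Q c ≤ SW κ' N Q c := by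
  unfold SW
  apply sum_le_sum
  intro q _
  exact mul_le_mul_of_nonneg_right (pow_le_pow_left₀ hκ hκ' _) (errMax_nonneg _ _ _)

theorem dim_exc (θ : ℝ) (hθ1 : 1 / 2 ≤ θ) (hθ2 : θ < 1)
    (E : Set ℝ) (g : ℕ → ℝ → ℝ) (u : ℕ → ℝ) (hu : ∀ k, 0 < u k)
    (hg : ∀ k, ∀ x ∈ E, ∀ y ∈ E, u k * |x - y| ≤ |g k x - g k y|) (δ : ℝ) (hδ : 0 ≤ δ)
    (hsum : ∀ s : ℝ, δ < s → Summable (fun k => u k ^ (-s))) (lam : ℝ) (hlam : 0 < lam)
    (r v : ℕ → ℕ → ℕ) (hr : ∀ k q, 1 ≤ q → (r k q).Coprime q) :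
    dimH (Exc θ lam E g u r v) ≤ ENNReal.ofReal (lam * (2 * θ - 1) + δ) := by
  have h1 : Exc θ lam E g u r v ⊆ ⋃ m : ℕ, {x : ℝ | x ∈ E ∧ ∃ᶠ k in atTop, 0 ≤ g k x ∧ ∃ N : ℕ, u k ≤ (N : ℝ) ^ (m + 1 : ℝ) ∧
      (N : ℝ) ≤ (m + 1 : ℝ) * u k ^ lam ∧
      (⌊g k x⌋₊ : ℝ) ≤ (N : ℝ) ^ (m + 1 : ℝ) ∧ Bad (m + 1 : ℝ) m θ (r k) (v k) N ⌊g k x⌋₊} := by
    rintro x ⟨hxE, m, hx⟩
    rw [Set.mem_iUnion]
    refine ⟨m, hxE, hx.mono ?_⟩
    rintro k ⟨h0, N, h1, h2, h3, h4⟩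
    have hN0 : N ≠ 0 := by
      rintro rfl
      rcases Nat.eq_zero_or_pos m with rfl | hm
      · have hθ0 : θ ≠ 0 := by linarith
        unfold Bad SW at h4
        simp [Real.zero_rpow hθ0] at h4
      · rw [Nat.cast_zero, zero_pow (by omega)] at h1
        exact absurd (hu k) (not_lt.2 h1)
    have hN1 : (1 : ℝ) ≤ N := by exact_mod_cast Nat.one_le_iff_ne_zero.2 hN0
    have h5 : (N : ℝ) ^ m ≤ (N : ℝ) ^ (m + 1 : ℝ) := by
      rw [← Real.rpow_natCast]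
      exact Real.rpow_le_rpow_of_exponent_le hN1 (by linarith)
    refine ⟨h0, N, h1.trans h5, h2.trans ?_, h3.trans h5, ?_⟩
    · exact mul_le_mul_of_nonneg_right (by linarith) (Real.rpow_nonneg (hu k).le _)
    · unfold Bad at h4 ⊢
      exact h4.trans_le (SW_mono_kappa _ _ (Nat.cast_nonneg _) (by linarith) _ _ _)
  refine (dimH_mono h1).trans ?_
  rw [dimH_iUnion]
  apply iSup_le
  intro m
  have hm : (0 : ℝ) ≤ m := Nat.cast_nonneg m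
  exact dim_fixed (m + 1) (by linarith) m (m + 1) θ (by linarith) hθ1 hθ2 E g u hu hg δ hδ hsum lam hlam r v hr

end Pool.Agent.T9h51.MT
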